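import Pool.Agent.KDS.StmtsA
import Pool.Agent.Helper7_KDT.UNV

/-!
# Squad KDS, row UNT: unipotent changes and products of quadratic monomials
-/

set_option autoImplicit false

noncomputable section

namespace Pool.Agent.KDS.H44

open Polynomial NumberField H58Q Pool.Agent.SZT Pool.Agent.KDT

/-- every monomial of degree 2 is reduced -/
private theorem AS_le2 {E J : Type} [Field E] (p : J → Fin 4 → E) (n : ℕ) :
    H7.AS p 2 n ≤ H7.WS p 2 n := by
  unfold H7.AS
  rw [Submodule.span_le]
  rintro F ⟨a, b, c, d, h1, h2, rfl⟩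
  have hmem : ![a, b, c, d] ∈ Ex 2 := by
    unfold Ex
    rw [Finset.mem_filter, Fintype.mem_piFinset]
    refine ⟨?_, ?_, ?_⟩
    · intro i
      rw [Finset.mem_range]
      fin_cases i
      · show a < 2 + 1
        omega
      · show b < 2 + 1
        omega
      · show c < 2 + 1
        omega
      · show d < 2 + 1
        omega
    · exact h1
    · show b ≤ 1 ∨ d ≤ 1
      omega
  apply Submodule.subset_span
  refine ⟨⟨![a, b, c, d], hmem⟩, ?_⟩
  have h3 : wt ![a, b, c, d] = b + 2 * c + 3 * d := rfl
  show (if wt ![a, b, c, d] < _ then (fun j => mon ![a, b, c, d] (p j)) else 0) = _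
  rw [if_pos (by rw [h3]; omega)]
  funext j
  rw [H7.mon4]
  rfl

theorem unt : UntStatement := by
  classical
  intro E _ c i u
  -- the matrix of the change of quadratic monomials
  have key : ∀ e : Ex 2, ∃ S : Ex 2 → E, (∀ e', S e' ≠ 0 → wt e'.1 < wt e.1) ∧
      ∀ x : Fin 4 → E, mon e.1 (uni c x) = mon e.1 x + ∑ e', S e' * mon e'.1 x := by
    intro e
    have hdeg : e.1 0 + e.1 1 + e.1 2 + e.1 3 = 2 := by
      have h := e.2
      unfold Ex at h
      rw [Finset.mem_filter] at h
      exact h.2.1
    have h1 := (H7.ap_mon (fun x : Fin 4 → E => x) c e.1).d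
    rw [hdeg] at h1
    have h2 := AS_le2 (fun x : Fin 4 → E => x) (wt e.1) h1
    unfold H7.WS at h2
    rw [Submodule.mem_span_range_iff_exists_fun] at h2
    obtain ⟨s, hs⟩ := h2
    refine ⟨fun e' => if wt e'.1 < wt e.1 then s e' else 0, ?_, ?_⟩
    · intro e' h
      by_contra hcon
      exact h (if_neg hcon)
    · intro x
      have h3 := congrFun hs x
      rw [Finset.sum_apply] at h3
      have h4 : ∑ e' : Ex 2, (if wt e'.1 < wt e.1 then s e' else 0) * mon e'.1 x =
          ∑ e' : Ex 2, (s e' • (if wt e'.1 < wt e.1 then (fun y => mon e'.1 y) else 0 :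
            (Fin 4 → E) → E)) x := by
        refine Finset.sum_congr rfl fun e' _ => ?_
        split_ifs with h5
        · rfl
        · simp
      rw [h4]
      have h6 : ∑ e' : Ex 2, (s e' • (if wt e'.1 < wt e.1 then (fun y => mon e'.1 y) else 0 :
            (Fin 4 → E) → E)) x = mon e.1 (uni c x) - mon e.1 x := h3
      rw [h6]
      ring
  choose S hS hSj using key
  let T : Ex 2 → Ex 2 → E := fun e' e => (if e' = e then 1 else 0) + S e e'
  have hTx : ∀ (e : Ex 2) (x : Fin 4 → E), mon e.1 (uni c x) = ∑ e', T e' e * mon e'.1 x := by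
    intro e x
    rw [hSj e x]
    show _ = ∑ e', ((if e' = e then (1 : E) else 0) + S e e') * mon e'.1 x
    simp only [add_mul, Finset.sum_add_distrib, ite_mul, one_mul, zero_mul, Finset.sum_ite_eq',
      Finset.mem_univ, if_true]
  have hT1 : ∀ e : Ex 2, T e e = 1 := by
    intro e
    show (if e = e then (1 : E) else 0) + S e e = 1
    have h1 : S e e = 0 := by
      by_contra h
      exact lt_irrefl _ (hS e e h)
    rw [if_pos rfl, h1, add_zero]
  have hT0 : ∀ e' e : Ex 2, T e' e ≠ 0 → e' = e ∨ wt e'.1 < wt e.1 := by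
    intro e' e h
    by_contra hcon
    push Not at hcon
    apply h
    show (if e' = e then (1 : E) else 0) + S e e' = 0
    have h1 : S e e' = 0 := by
      by_contra h
      have := hS e e' h
      omega
    rw [if_neg hcon.1, h1, add_zero]
  let M : Matrix (QI i) (QI i) E := Matrix.of fun q' q => ∏ a : Fin i, T (q' a) (q a)
  let b : QI i → ℕ := fun q => ∑ a : Fin i, wt (q a).1
  have hmul : (Matrix.of fun (j q : QI i) => ∏ a : Fin i, mon (q a).1 (uni c (u j a))) =
      (Matrix.of fun (j q : QI i) => ∏ a : Fin i, mon (q a).1 (u j a)) * M := by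
    ext j q
    rw [Matrix.mul_apply]
    show ∏ a : Fin i, mon (q a).1 (uni c (u j a)) =
      ∑ q' : QI i, (∏ a : Fin i, mon (q' a).1 (u j a)) * ∏ a : Fin i, T (q' a) (q a)
    have h1 : ∏ a : Fin i, mon (q a).1 (uni c (u j a)) =
        ∏ a : Fin i, ∑ e' ∈ (Finset.univ : Finset (Ex 2)), T e' (q a) * mon e'.1 (u j a) :=
      Finset.prod_congr rfl fun a _ => hTx (q a) (u j a)
    rw [h1, Finset.prod_univ_sum, Fintype.piFinset_univ]
    refine Finset.sum_congr rfl fun q' _ => ?_
    rw [← Finset.prod_mul_distrib]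
    exact Finset.prod_congr rfl fun a _ => mul_comm _ _
  have hM0 : ∀ q' q : QI i, M q' q ≠ 0 → q' = q ∨ b q' < b q := by
    intro q' q h
    have h1 : ∀ a : Fin i, T (q' a) (q a) ≠ 0 := by
      intro a h2
      apply h
      show ∏ a : Fin i, T (q' a) (q a) = 0
      exact Finset.prod_eq_zero (Finset.mem_univ a) h2
    by_cases h2 : q' = q
    · exact Or.inl h2
    · right
      obtain ⟨a, ha⟩ := Function.ne_iff.mp h2
      have h3 : ∀ a : Fin i, wt (q' a).1 ≤ wt (q a).1 := by
        intro a
        rcases hT0 _ _ (h1 a) with h4 | h4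
        · rw [h4]
        · exact h4.le
      have h5 : wt (q' a).1 < wt (q a).1 := by
        rcases hT0 _ _ (h1 a) with h4 | h4
        · exact absurd h4 ha
        · exact h4
      exact Finset.sum_lt_sum (fun a _ => h3 a) ⟨a, Finset.mem_univ a, h5⟩
  have hbt : M.BlockTriangular b := by
    intro q' q h
    by_contra hne
    rcases hM0 q' q hne with h1 | h1
    · rw [h1] at h
      exact lt_irrefl _ h
    · exact lt_asymm h h1
  have hdet : M.det = 1 := by
    rw [hbt.det]
    refine Finset.prod_eq_one fun w _ => ?_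
    have h1 : M.toSquareBlock b w = 1 := by
      ext q' q
      show M q'.1 q.1 = (1 : Matrix _ _ E) q' q
      rw [Matrix.one_apply]
      by_cases h6 : q' = q
      · rw [if_pos h6, h6]
        show ∏ a : Fin i, T (q.1 a) (q.1 a) = 1
        exact Finset.prod_eq_one fun a _ => hT1 _
      · rw [if_neg h6]
        by_contra hne
        rcases hM0 q'.1 q.1 hne with h2 | h2
        · exact h6 (Subtype.ext h2)
        · have h4 : b q.1 = w := q.2
          have h5 : b q'.1 = w := q'.2
          omega
    rw [h1, Matrix.det_one]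
  rw [hmul, Matrix.det_mul, hdet, mul_one]

end Pool.Agent.KDS.H44
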